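import Pool.Agent.W734.STS.Stms

/-!
# STS-BET: the boundary energy is `o(N)`
-/

set_option autoImplicit false

noncomputable section

namespace Pool.Agent.W55.STS

open Filter Topology
open Pool.Agent.W734.STS

theorem betp : S_BET := by
  have hlam0 : (0 : ℝ) ≤ lam := by norm_num [lam]
  have hlam1 : lam < 1 := by norm_num [lam]
  have hsum : Summable (fun i : ℕ => lam ^ i) := summable_geometric_of_lt_one hlam0 hlam1
  have key : Tendsto (fun N : ℕ => ∑' i : ℕ, lam ^ i * (min (D i : ℝ) N / N)) atTop
      (nhds (∑' _i : ℕ, (0 : ℝ))) := by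
    refine tendsto_tsum_of_dominated_convergence hsum ?_ ?_
    · intro i
      have h1 : Tendsto (fun N : ℕ => lam ^ i * ((D i : ℝ) / N)) atTop (nhds 0) := by
        have := (tendsto_const_div_atTop_nhds_zero_nat (D i : ℝ)).const_mul (lam ^ i)
        rwa [mul_zero] at this
      refine squeeze_zero (fun N => ?_) (fun N => ?_) h1
      · positivity
      · gcongr
        exact min_le_left _ _
    · refine Eventually.of_forall fun N i => ?_
      have h0 : 0 ≤ lam ^ i * (min (D i : ℝ) N / N) := by positivity
      rw [Real.norm_of_nonneg h0]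
      have h1 : min (D i : ℝ) N / N ≤ 1 := by
        rcases Nat.eq_zero_or_pos N with rfl | hN
        · simp
        · have hNR : (0 : ℝ) < N := by exact_mod_cast hN
          rw [div_le_one hNR]
          exact min_le_right _ _
      calc lam ^ i * (min (D i : ℝ) N / N) ≤ lam ^ i * 1 :=
            mul_le_mul_of_nonneg_left h1 (by positivity)
        _ = lam ^ i := mul_one _
  rw [tsum_zero] at key
  have h2 : Tendsto (fun N : ℕ => 8 * ((1 : ℝ) / N +
      ∑' i : ℕ, lam ^ i * (min (D i : ℝ) N / N))) atTop (nhds (8 * (0 + 0))) :=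
    ((tendsto_const_div_atTop_nhds_zero_nat (1 : ℝ)).add key).const_mul 8
  rw [add_zero, mul_zero] at h2
  refine h2.congr fun N => ?_
  unfold bet
  rw [mul_div_assoc, add_div]
  congr 2
  rw [← tsum_div_const]
  refine tsum_congr fun i => ?_
  rw [mul_div_assoc]

end Pool.Agent.W55.STS
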